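import Mathlib
import Pool.Agent.Y902.GN.Wd

/-!
# Rational points on hypersurfaces whose Newton polytope has large lattice width

For all `n`, `M`, `E` and `ε > 0` there are `R` and `δ > 0` such that for every `Y ≥ 1`, all exponent
vectors `e 1, …, e M` in `ℤ ^ n` with entries of absolute value at most `Y ^ δ`, all nonzero integers
`u 1, …, u M` of absolute value at most `exp (Y ^ δ)` and every proper subgroup `Λ` of `ℤ ^ n` such
that each `w ∉ Λ` has width at least `R` (there are `i`, `i'` with `⟨w, e i - e i'⟩ ≥ R`): the points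
`x` of the torus over `ℚ`, with numerators and denominators of the coordinates at most `Y`, that lie
on one of the hypersurfaces `X s : ∑ u i * s i * x ^ (e i) = 0`, `0 < |s i| ≤ Y ^ E`, and on which no
partial sum vanishes, lie in at most `Y ^ ε` translates of the subgroup of the torus of all `z` with
positive coordinates and valuation vectors in `Λ`. If the lattice width of the Newton polytope is at
least `R` (that is, `Λ = 0`), there are at most `Y ^ ε` points.

Method: ultraproduct, `p`-adic determinant method with unbounded exponents as coefficients, isotypic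
decomposition of the relations between the terms; then all ratios of the terms are nearly constant
on a large subset, and the valuation vectors of the quotients of two points are outside `Λ` only at
the primes dividing a small number.
-/

set_option autoImplicit false

namespace Pool.Agent.Results.MP_17a322_nt.LargeWidth

/-- the sum of the terms `c i * x ^ (e i)`, `i ∈ K`, of a Laurent polynomial -/
def partialSum {n M : ℕ} (c : Fin M → ℤ) (e : Fin M → Fin n → ℤ) (K : Finset (Fin M))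
    (x : Fin n → ℚ) : ℚ := ∑ i ∈ K, (c i : ℚ) * ∏ j, x j ^ e i j

/-- the points which are counted -/
def Points {n M : ℕ} (E Y : ℕ) (u : Fin M → ℤ) (e : Fin M → Fin n → ℤ) : Set (Fin n → ℚ) :=
  {x | (∀ j, x j ≠ 0 ∧ |(x j).num| ≤ (Y : ℤ) ∧ (x j).den ≤ Y) ∧
    ∃ s : Fin M → ℤ, (∀ i, s i ≠ 0 ∧ |s i| ≤ (Y : ℤ) ^ E) ∧
      partialSum (fun i => u i * s i) e Finset.univ x = 0 ∧
      ∀ K : Finset (Fin M), K.Nonempty → K ≠ Finset.univ →
        partialSum (fun i => u i * s i) e K x ≠ 0}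

/-- `x` lies in the translate by `z` of the group of points with positive coordinates whose vectors
of `p`-adic valuations are in `Λ`, for all primes `p` -/
def InTranslate {n : ℕ} (Λ : AddSubgroup (Fin n → ℤ)) (x z : Fin n → ℚ) : Prop :=
  (∀ j, 0 < x j / z j) ∧ ∀ p : ℕ, p.Prime → (fun j => padicValRat p (x j / z j)) ∈ Λ

open Pool.Agent.Y902.GN

theorem good_iff {n M E Y : ℕ} {u : Fin M → ℤ} {e : Fin M → Fin n → ℤ} {x : Fin n → ℚ}
    (hx : x ∈ Points E Y u e) : ∃ s : Fin M → ℤ, WdGood E Y u e x s := by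
  obtain ⟨h1, s, h2, h3, h4⟩ := hx
  exact ⟨s, ⟨h1, h2, h3, h4⟩⟩

theorem symm' {n : ℕ} {Λ : AddSubgroup (Fin n → ℤ)} {x z : Fin n → ℚ} (h : InTranslate Λ x z) :
    InTranslate Λ z x := by
  obtain ⟨h1, h2⟩ := h
  have h3 : ∀ j, z j / x j = (x j / z j)⁻¹ := fun j => (inv_div _ _).symm
  refine ⟨fun j => ?_, fun p hp => ?_⟩
  · rw [h3]
    exact inv_pos.2 (h1 j)
  · have : Fact p.Prime := ⟨hp⟩
    have h4 : (fun j => padicValRat p (z j / x j)) = -(fun j => padicValRat p (x j / z j)) := by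
      funext j
      rw [Pi.neg_apply, h3, padicValRat.inv]
    rw [h4]
    exact Λ.neg_mem (h2 p hp)

theorem eq_of_bot {n : ℕ} {x z : Fin n → ℚ} (h : InTranslate ⊥ x z) : x = z := by
  obtain ⟨h1, h2⟩ := h
  funext j
  have hz : z j ≠ 0 := by
    intro h
    have := h1 j
    rw [h, div_zero] at this
    exact lt_irrefl _ this
  by_contra hne
  obtain ⟨p, hp, hv⟩ := exists_prime_val (h1 j) (fun h => hne ((div_eq_one_iff_eq hz).1 h))
  have h3 := h2 p hp
  rw [AddSubgroup.mem_bot] at h3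
  exact hv (congrFun h3 j)

/-- For all `n`, `M`, `E` and `ε > 0` there are `R` and `δ > 0` such that for all `Y ≥ 1`, all
exponents `|e i j| ≤ Y ^ δ` and all nonzero integers `|u i| ≤ exp (Y ^ δ)`: (1) if `Λ` is a proper
subgroup of `ℤ ^ n` and each `w ∉ Λ` has width at least `R`, the points lie in at most `Y ^ ε`
translates; (2) if all `w ≠ 0` have width at least `R`, there are at most `Y ^ ε` points. -/
theorem result (n M E : ℕ) (ε : ℝ) (hε : 0 < ε) : ∃ (R : ℕ) (δ : ℝ), 0 < δ ∧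
    ∀ (Y : ℕ) (e : Fin M → Fin n → ℤ) (u : Fin M → ℤ), 1 ≤ Y →
      (∀ i j, ((|e i j| : ℤ) : ℝ) ≤ (Y : ℝ) ^ δ) →
      (∀ i, u i ≠ 0 ∧ ((|u i| : ℤ) : ℝ) ≤ Real.exp ((Y : ℝ) ^ δ)) →
      (∀ Λ : AddSubgroup (Fin n → ℤ), Λ ≠ ⊤ →
        (∀ w, w ∉ Λ → ∃ i i', (R : ℤ) ≤ ∑ j, w j * (e i j - e i' j)) →
        ∃ L : Finset (Fin n → ℚ), (L.card : ℝ) ≤ (Y : ℝ) ^ ε ∧
          ∀ x ∈ Points E Y u e, ∃ z ∈ L, InTranslate Λ x z) ∧
      ((∀ w : Fin n → ℤ, w ≠ 0 → ∃ i i', (R : ℤ) ≤ ∑ j, w j * (e i j - e i' j)) →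
        (Points E Y u e).Finite ∧ ((Points E Y u e).ncard : ℝ) ≤ (Y : ℝ) ^ ε) := by
  classical
  obtain ⟨R, δ, hδ, H⟩ := wide n M E ε hε
  refine ⟨R, δ, hδ, fun Y e u hY he hu => ?_⟩
  have hA : ∀ Λ : AddSubgroup (Fin n → ℤ), Λ ≠ ⊤ →
      (∀ w, w ∉ Λ → ∃ i i', (R : ℤ) ≤ ∑ j, w j * (e i j - e i' j)) →
      ∃ L : Finset (Fin n → ℚ), (L.card : ℝ) ≤ (Y : ℝ) ^ ε ∧
        ∀ x ∈ Points E Y u e, ∃ z ∈ L, InTranslate Λ x z := by
    intro Λ hΛt hΛ
    have hbound : ∀ T : Finset (Fin n → ℚ), (∀ x ∈ T, x ∈ Points E Y u e) →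
        (∀ x ∈ T, ∀ z ∈ T, InTranslate Λ x z → x = z) → T.card ≤ ⌊(Y : ℝ) ^ ε⌋₊ := by
      intro T hT1 hT2
      exact Nat.le_floor (H Y hY e he Λ hΛt hΛ u hu T (fun x hx => good_iff (hT1 x hx)) hT2)
    obtain ⟨k, hk⟩ : ∃ k, k = Nat.findGreatest (fun k => ∃ T : Finset (Fin n → ℚ),
        (∀ x ∈ T, x ∈ Points E Y u e) ∧ (∀ x ∈ T, ∀ z ∈ T, InTranslate Λ x z → x = z) ∧
        T.card = k) ⌊(Y : ℝ) ^ ε⌋₊ := ⟨_, rfl⟩
    obtain ⟨T, hT1, hT2, hT3⟩ : ∃ T : Finset (Fin n → ℚ),
        (∀ x ∈ T, x ∈ Points E Y u e) ∧ (∀ x ∈ T, ∀ z ∈ T, InTranslate Λ x z → x = z) ∧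
        T.card = k := by
      rw [hk]
      exact Nat.findGreatest_spec (P := fun k => ∃ T : Finset (Fin n → ℚ),
        (∀ x ∈ T, x ∈ Points E Y u e) ∧ (∀ x ∈ T, ∀ z ∈ T, InTranslate Λ x z → x = z) ∧
        T.card = k) (Nat.zero_le _) ⟨∅, by simp, by simp, rfl⟩
    refine ⟨T, ?_, fun x hx => ?_⟩
    · exact le_trans (by exact_mod_cast hbound T hT1 hT2) (Nat.floor_le (by positivity))
    · by_contra hcon
      push Not at hcon
      have hxT : x ∉ T := by
        intro hxT
        refine hcon x hxT ⟨fun j => ?_, fun p hp => ?_⟩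
        · rw [div_self (hx.1 j).1]
          exact one_pos
        · have : (fun j => padicValRat p (x j / x j)) = 0 := by
            funext j
            rw [div_self (hx.1 j).1, padicValRat.one]
            rfl
          rw [this]
          exact Λ.zero_mem
      have h1 : ∀ y ∈ insert x T, y ∈ Points E Y u e := by
        intro y hy
        rcases Finset.mem_insert.1 hy with rfl | hy
        · exact hx
        · exact hT1 y hy
      have h2 : ∀ y ∈ insert x T, ∀ z ∈ insert x T, InTranslate Λ y z → y = z := by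
        intro y hy z hz hyz
        rcases Finset.mem_insert.1 hy with hy | hy <;> rcases Finset.mem_insert.1 hz with hz | hz
        · rw [hy, hz]
        · rw [hy] at hyz
          exact absurd hyz (hcon z hz)
        · rw [hz] at hyz
          exact absurd (symm' hyz) (hcon y hy)
        · exact hT2 y hy z hz hyz
      have h3 := hbound _ h1 h2
      have h4 := Nat.le_findGreatest h3 (P := fun k => ∃ T : Finset (Fin n → ℚ),
        (∀ x ∈ T, x ∈ Points E Y u e) ∧ (∀ x ∈ T, ∀ z ∈ T, InTranslate Λ x z → x = z) ∧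
        T.card = k) ⟨_, h1, h2, rfl⟩
      rw [← hk, Finset.card_insert_of_notMem hxT] at h4
      omega
  refine ⟨hA, fun hw => ?_⟩
  by_cases ht : (⊥ : AddSubgroup (Fin n → ℤ)) = ⊤
  · have hsub : ∀ x z : Fin n → ℚ, x = z := by
      intro x z
      funext j
      exfalso
      have h1 : (Pi.single j 1 : Fin n → ℤ) ∈ (⊥ : AddSubgroup (Fin n → ℤ)) := by
        rw [ht]
        exact AddSubgroup.mem_top _
      rw [AddSubgroup.mem_bot] at h1
      have h2 := congrFun h1 j
      simp at h2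
    refine fin_of_bound _ _ fun T hT => ?_
    have h1 : T.card ≤ 1 := Finset.card_le_one.2 fun x _ z _ => hsub x z
    calc (T.card : ℝ) ≤ 1 := by exact_mod_cast h1
      _ ≤ (Y : ℝ) ^ ε := Real.one_le_rpow (by exact_mod_cast hY) hε.le
  · obtain ⟨L, hL1, hL2⟩ := hA ⊥ ht fun w hwb => hw w fun h => hwb (by
      rw [h]
      exact AddSubgroup.zero_mem _)
    refine fin_of_bound _ _ fun T hT => ?_
    have h1 : T ⊆ L := by
      intro x hx
      obtain ⟨z, hz, hxz⟩ := hL2 x (hT x hx)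
      rw [eq_of_bot hxz]
      exact hz
    exact le_trans (by exact_mod_cast Finset.card_le_card h1) hL1

end Pool.Agent.Results.MP_17a322_nt.LargeWidth
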