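import Pool.Agent.Y911.RR.Main

/-!
# Integral points over random rings of `S`-integers

`K` is a number field, `α 1, …, α r` are `r ≥ 2` different elements of `K`, `U` is the set of
`K`-points of a closed subscheme of the affine space of dimension `N` (any subset is allowed), with
a morphism `(f 1, …, f m)` to the `m`-th power of the projective line without `∞, α 1, …, α r`
which is at most `B`-to-one on `U`. (Example: the moduli space `M_{0, m + 3}`, of dimension `m`.)
For a nonzero ideal `n` let `S(n)` consist of the primes of a fixed finite set `S` and of those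
dividing `n`. We consider the set `U(O_{S(n)})` of the `S(n)`-integral points for random `n`.
-/

set_option autoImplicit false

namespace Pool.Agent.Results.MP_17a322_nt.RandomRings

open NumberField IsDedekindDomain Filter Topology

section Defs

variable {K : Type} [Field K] [NumberField K] {N : ℕ}

/-- the points of `U` whose coordinates are `T`-integers -/
def Points (U : Set (Fin N → K)) (T : Set (HeightOneSpectrum (𝓞 K))) : Set U :=
  {x | ∀ j, x.1 j ∈ T.integer K}

/-- `S(n)`: the primes of `S` and those dividing `n` -/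
def primesOf (S : Set (HeightOneSpectrum (𝓞 K))) (n : Ideal (𝓞 K)) :
    Set (HeightOneSpectrum (𝓞 K)) := S ∪ {v | n ≤ v.asIdeal}

/-- the product of the norms of the primes outside `S` which divide the denominator of a
coordinate of one of the points `τ i` -/
noncomputable def nrm (S : Set (HeightOneSpectrum (𝓞 K))) {U : Set (Fin N → K)} {k : ℕ}
    (τ : Fin k → U) : ℝ :=
  ∏ᶠ v ∈ {v : HeightOneSpectrum (𝓞 K) | v ∉ S ∧ ∃ i j, 1 < v.valuation K ((τ i).1 j)},
    (Ideal.absNorm v.asIdeal : ℝ)

/-- the product of the norms of the primes `v` at which not all the `z - α l` are units -/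
noncomputable def rad {r : ℕ} (α : Fin r → K) (z : K) : ℝ :=
  ∏ᶠ v ∈ {v : HeightOneSpectrum (𝓞 K) | ∃ l, v.valuation K (z - α l) ≠ 1},
    (Ideal.absNorm v.asIdeal : ℝ)

end Defs

section Average

variable (K : Type) [Field K] [NumberField K]

/-- the nonzero ideals of norm at most `X` -/
noncomputable def ideals (X : ℕ) : Finset (Ideal (𝓞 K)) :=
  (Pool.Agent.Y911.RR.fin_ids K X : {n : Ideal (𝓞 K) | n ≠ ⊥ ∧ Ideal.absNorm n ≤ X}.Finite).toFinset

/-- the mean of a function over the nonzero ideals of norm at most `X` -/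
noncomputable def mean (X : ℕ) (f : Ideal (𝓞 K) → ℝ) : ℝ :=
  (∑ n ∈ ideals K X, f n) / (ideals K X).card

/-- the proportion of the nonzero ideals of norm at most `X` in the set `Q` -/
noncomputable def proportion (X : ℕ) (Q : Set (Ideal (𝓞 K))) : ℝ :=
  ({n | n ∈ ideals K X ∧ n ∈ Q}.ncard : ℝ) / (ideals K X).card

end Average

/-- **Integral points over random rings of `S`-integers.**
(0) `U(O_{S(n)})` is finite.
(1) For all `k`, the mean of `#U(O_{S(n)}) ^ k` over the ideals of norm `≤ X` tends to the sum of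
the convergent series of the `1 / nrm S τ`, `τ` in `U ^ k`.
(2) The random set `U(O_{S(n)})` has a limit law `δ`, which is a probability on the finite subsets
of `U` with all moments.
(3) For all but a proportion `≤ C Z ^ (-κ)` of the ideals, `U(O_{S(n)})` is contained in the set of
the points with `nrm ≤ Z`, which is finite and independent of `n`.
(4) For all but a proportion `≤ C Z ^ (-(r - 1) / (r + 1) + ε)` of the ideals, every point of
`U(O_{S(n)})` has `rad (f i) ≤ Z` for all `i`. -/
theorem result (K : Type) [Field K] [NumberField K] (N m r B : ℕ) (hr : 2 ≤ r)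
    (α : Fin r → K) (hα : Function.Injective α)
    (U : Set (Fin N → K)) (f : Fin m → MvPolynomial (Fin N) K)
    (g : Fin m → Fin r → MvPolynomial (Fin N) K)
    (hfg : ∀ x ∈ U, ∀ i l, (MvPolynomial.eval x (f i) - α l) * MvPolynomial.eval x (g i l) = 1)
    (hB : ∀ y : Fin m → K, ∃ G : Finset (Fin N → K), G.card ≤ B ∧
      ∀ x ∈ U, (∀ i, MvPolynomial.eval x (f i) = y i) → x ∈ G)
    (S : Set (HeightOneSpectrum (𝓞 K))) (hS : S.Finite) :
    (∀ n : Ideal (𝓞 K), n ≠ ⊥ → (Points U (primesOf S n)).Finite) ∧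
    (∀ k : ℕ, Summable (fun τ : Fin k → U => 1 / nrm S τ) ∧
      Tendsto (fun X => mean K X fun n => ((Points U (primesOf S n)).ncard : ℝ) ^ k) atTop
        (𝓝 (∑' τ : Fin k → U, 1 / nrm S τ))) ∧
    (∃ δ : Finset U → ℝ,
      (∀ F : Finset U,
        Tendsto (fun X => proportion K X {n | Points U (primesOf S n) = F}) atTop (𝓝 (δ F))) ∧
      HasSum δ 1 ∧
      ∀ k : ℕ, HasSum (fun F => δ F * (F.card : ℝ) ^ k) (∑' τ : Fin k → U, 1 / nrm S τ)) ∧
    ((∀ Z : ℝ, {x : U | nrm S (fun _ : Fin 1 => x) ≤ Z}.Finite) ∧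
      ∃ κ C : ℝ, 0 < κ ∧ ∀ X : ℕ, 1 ≤ X → ∀ Z : ℝ, 1 ≤ Z →
        proportion K X {n | ∃ x ∈ Points U (primesOf S n), Z < nrm S (fun _ : Fin 1 => x)} ≤
          C * Z ^ (-κ)) ∧
    (∀ ε : ℝ, 0 < ε → ∃ C : ℝ, ∀ X : ℕ, 1 ≤ X → ∀ Z : ℝ, 1 ≤ Z →
      proportion K X {n | ∃ x ∈ Points U (primesOf S n), ∃ i,
          Z < rad α (MvPolynomial.eval x.1 (f i))} ≤
        C * Z ^ (-((r : ℝ) - 1) / (r + 1) + ε)) :=
  Pool.Agent.Y911.RR.main hr U α hα f g ⟨hfg, hB⟩ S hS

end Pool.Agent.Results.MP_17a322_nt.RandomRings
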