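import Pool.Agent.Y20.VP.Opt

/-!
# Vojta's inequality on varieties over products of elliptic curves: the exact size of the
exceptional set
-/

set_option autoImplicit false

open MvPolynomial NumberField Pool.Agent.TH954.X Pool.Agent.TH954.X.We Pool.Agent.TH954.Y

namespace Pool.Agent.Results.MP_17a322_nt.SharpExceptionalSet

section

variable {K : Type} [Field K] {n k : ℕ}

/-- the rational points of the product `B` of the elliptic curves `y² = x³ + a i x + b i`,
`We.curve (a i) (b i)` being Mathlib's Weierstrass curve with these coefficients -/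
abbrev Pts (a b : Fin k → K) : Type := ∀ i, (We.curve (a i) (b i)).toAffine.Point

/-- the coordinates `(z, x, y)` of the components of a point of `B`: `(1, x, y)` for the affine points
and `(0, 0, 1)` for the point at infinity -/
def crds {a b : Fin k → K} (P : Pts a b) : Fin k → Fin 3 → K := fun i => We.coords (P i)

/-- the equations of a closed subscheme of `ℙ × B`, with `ℙ` the projective space of dimension
`n - 1`: finitely many multihomogeneous forms `f i`, of multidegrees `δ i` (each factor of `B` lies in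
the plane of the first three coordinates `z, x, y` of a projective space of dimension `n - 1`) -/
structure Eqs (K : Type) [Field K] (n k : ℕ) where
  s : ℕ
  f : Fin s → MvPolynomial (Option (Fin k) × Fin n) K
  δ : Fin s → Option (Fin k) → ℕ
  hom : ∀ i, MH (δ i) (f i)

/-- no equations: the closed subset is the whole of `ℙ × B` -/
def whole : Eqs K n k := ⟨0, Fin.elim0, Fin.elim0, fun i => i.elim0⟩

/-- the point `(t, u)` of `ℙ × B` over the extension field `F` lies on the closed subset `X`; the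
coordinates of the components `u i` are `(z, x, y, 0, ..., 0)` -/
def On (X : Eqs K n k) {F : Type} [Field F] [Algebra K F] (t : Fin n → F)
    (u : Fin k → Fin 3 → F) : Prop := ∀ i, ev (X.f i) (ful t u) = 0

/-- the image in `B` of the closed subset `X ∩ W` of `ℙ × B` has codimension at least `c`: the
normalised coordinates of each point of the image, over each extension field, generate a field of
transcendence degree at most `k - c` -/
def ImageCodim (a b : Fin k → K) (X W : Eqs K n k) (c : ℕ) : Prop :=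
  ∀ (F : Type) [Field F] [Algebra K F] (t : Fin n → F) (u : Fin k → Fin 3 → F), t ≠ 0 →
    OnB a b u → On X t u → On W t u →
    Algebra.trdeg K (IntermediateField.adjoin K
      (Set.range (fun p : Fin k × Fin 3 => u p.1 p.2))) + (c : Cardinal) ≤ (k : Cardinal)

/-- the closed subset `D` of `ℙ × B` has no points -/
def NoPoints (a b : Fin k → K) (D : Eqs K n k) : Prop :=
  ∀ (F : Type) [Field F] [Algebra K F] (t : Fin n → F) (u : Fin k → Fin 3 → F), t ≠ 0 →
    OnB a b u → ¬ On D t u

/-- the local height of `x` with respect to the subscheme `W`: minus the logarithm of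
`max_i |f i (x)|_v / ∏_j |x_j|_v ^ (δ i j)`, with `|x_j|_v` the maximum of the absolute values of the
coordinates of `x_j` -/
noncomputable def lambda (W : Eqs K n k) (x : Option (Fin k) → Fin n → K)
    (v : AbsoluteValue K ℝ) : ℝ :=
  -Real.log (⨆ i, v (ev (W.f i) x) / ∏ j, (⨆ c, v (x j c)) ^ W.δ i j)

variable [NumberField K]

/-- the height with respect to the subscheme `W`: the sum of the local heights over all places -/
noncomputable def heightW (W : Eqs K n k) (x : Option (Fin k) → Fin n → K) : ℝ :=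
  ∑ w : InfinitePlace K, (w.mult : ℝ) * lambda W x w.val +
    ∑ᶠ v : FinitePlace K, lambda W x v.val

/-- the proximity function: the sum of the local heights over the places in `S = S1 ∪ S2` -/
noncomputable def proximity (D : Eqs K n k) (S1 : Finset (InfinitePlace K))
    (S2 : Finset (FinitePlace K)) (x : Option (Fin k) → Fin n → K) : ℝ :=
  ∑ w ∈ S1, (w.mult : ℝ) * lambda D x w.val + ∑ v ∈ S2, lambda D x v.val

/-- the sum of the logarithmic heights of the components of a point of `B` -/
noncomputable def height {a b : Fin k → K} (P : Pts a b) : ℝ :=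
  ∑ i, Height.logHeight (crds P i)

/-- the inequality `h_W(x) + m_{S,D}(x) ≤ ε h(P)` is false at the point `x = (t, P)` of `ℙ × B` -/
def Fails (W D : Eqs K n k) (S1 : Finset (InfinitePlace K)) (S2 : Finset (FinitePlace K)) (ε : ℝ)
    (t : Fin n → K) {a b : Fin k → K} (P : Pts a b) : Prop :=
  ε * height P < heightW W (ful t (crds P)) + proximity D S1 S2 (ful t (crds P))

/-- the exceptional points `P` of `B(K)`: there is a rational point `x = (t, P)` of `X` over `P` which
is in `W` or in `D` or does not satisfy the inequality `h_W(x) + m_{S,D}(x) ≤ ε h(P)` -/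
def Exceptions (a b : Fin k → K) (X W D : Eqs K n k)
    (S1 : Finset (InfinitePlace K)) (S2 : Finset (FinitePlace K)) (ε : ℝ) : Set (Pts a b) :=
  {P | ∃ t : Fin n → K, t ≠ 0 ∧ On X t (crds P) ∧
    (On W t (crds P) ∨ On D t (crds P) ∨ Fails W D S1 S2 ε t P)}

/-- the points `P` of `B(K)` with a rational point `x = (t, P)` of `X` over `P` which is neither in
`W` nor in `D` and does not satisfy the inequality -/
def StrictExceptions (a b : Fin k → K) (X W D : Eqs K n k)
    (S1 : Finset (InfinitePlace K)) (S2 : Finset (FinitePlace K)) (ε : ℝ) : Set (Pts a b) :=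
  {P | ∃ t : Fin n → K, t ≠ 0 ∧ On X t (crds P) ∧
    ¬ On W t (crds P) ∧ ¬ On D t (crds P) ∧ Fails W D S1 S2 ε t P}

variable [DecidableEq K] {a b : Fin k → K}

/-- the points of `∏ Γ i` of height at most `T` -/
def Ball (Γ : ∀ i, AddSubgroup (We.curve (a i) (b i)).toAffine.Point) (T : ℝ) : Set (Pts a b) :=
  {P | (∀ i, P i ∈ Γ i) ∧ height P ≤ T}

/-- the rank of `∏ Γ i` -/
noncomputable def rk (Γ : ∀ i, AddSubgroup (We.curve (a i) (b i)).toAffine.Point) : ℝ :=
  ∑ i, (Module.finrank ℤ (Γ i) : ℝ)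

/-- the number of points of `∏ Γ i` of height at most `T` has the order of magnitude `T ^ (r / 2)`,
with `r` the rank -/
def Growth (Γ : ∀ i, AddSubgroup (We.curve (a i) (b i)).toAffine.Point) : Prop :=
  ∃ c C T0 : ℝ, 0 < c ∧ ∀ T : ℝ, T0 ≤ T → (Ball Γ T).Finite ∧
    c * T ^ (rk Γ / 2) ≤ ((Ball Γ T).ncard : ℝ) ∧ ((Ball Γ T).ncard : ℝ) ≤ C * T ^ (rk Γ / 2)

/-- for all closed subsets `X` of `ℙ × B`, with `ℙ` of dimension `n - 1`, all `W` and `D` with images
(in `B`, of `X ∩ W` and `X ∩ D`) of codimension at least two and at least one, all finite sets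
`S = S1 ∪ S2` of places and all `ε > 0`, the number of exceptional points of height at most `T` in
`∏ Γ i` is `O(T ^ ((r - m) / 2))` -/
def FewExceptions (n : ℕ) (Γ : ∀ i, AddSubgroup (We.curve (a i) (b i)).toAffine.Point) (m : ℕ) :
    Prop :=
  ∀ X W D : Eqs K n k, ImageCodim a b X W 2 → ImageCodim a b X D 1 →
    ∀ (S1 : Finset (InfinitePlace K)) (S2 : Finset (FinitePlace K)) (ε : ℝ), 0 < ε →
    ∃ C : ℝ, ∀ T : ℝ, 1 ≤ T →
      ((Ball Γ T ∩ Exceptions a b X W D S1 S2 ε).ncard : ℝ) ≤ C * T ^ ((rk Γ - m) / 2)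

/-- for each `i` there is a closed subset `D` of `ℙ × B` with image of codimension at least one such
that, for all `W`, `S` and `ε`, the number of exceptional points of height at most `T` in `∏ Γ i` is
at least `c T ^ ((r - r_i) / 2)`, with `r_i` the rank of `Γ i` -/
def Optimal (n : ℕ) (Γ : ∀ i, AddSubgroup (We.curve (a i) (b i)).toAffine.Point) : Prop :=
  ∀ i, ∃ D : Eqs K n k, ImageCodim a b whole D 1 ∧ ∃ c T0 : ℝ, 0 < c ∧ ∀ (W : Eqs K n k)
    (S1 : Finset (InfinitePlace K)) (S2 : Finset (FinitePlace K)) (ε T : ℝ), T0 ≤ T →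
      c * T ^ ((rk Γ - Module.finrank ℤ (Γ i)) / 2) ≤
        ((Ball Γ T ∩ Exceptions a b whole W D S1 S2 ε).ncard : ℝ)

end

/-- on `ℙ × E × E`, with `E` the curve `y² = x³ + a x + b` and `ℙ` of dimension `n - 1`, there are `W`
with image of codimension at least two and `D` without points such that, for all subgroups `Γ` of
`E(K)` of rank `s ≥ 1`, all `S` and all `ε < 1 / 2`, the number of points of height at most `T` in
`Γ × Γ` over which there is a point outside `W` and `D` violating the inequality is at least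
`c T ^ (s / 2)` -/
def OptimalOff (K : Type) [Field K] [NumberField K] [DecidableEq K] (n : ℕ) (a b : K) : Prop :=
  ∃ W D : Eqs K n 2, ImageCodim (fun _ => a) (fun _ => b) whole W 2 ∧
    NoPoints (fun _ => a) (fun _ => b) D ∧
    ∀ Γ : AddSubgroup (We.curve a b).toAffine.Point, 1 ≤ Module.finrank ℤ Γ →
    ∃ c T0 : ℝ, 0 < c ∧ ∀ (S1 : Finset (InfinitePlace K)) (S2 : Finset (FinitePlace K)) (ε : ℝ),
      ε < 1 / 2 → ∀ T : ℝ, T0 ≤ T → c * T ^ ((Module.finrank ℤ Γ : ℝ) / 2) ≤
        ((Ball (fun _ : Fin 2 => Γ) T ∩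
          StrictExceptions (fun _ => a) (fun _ => b) whole W D S1 S2 ε).ncard : ℝ)

section

open Pool.Agent.TH954.V Pool.Agent.TH954.Y.RedL Pool.Agent.Y20.VP

variable {K : Type} [Field K] {n k : ℕ}

/-- the closed subset `P i = O` -/
noncomputable def zeroAt (K : Type) [Field K] {n k : ℕ} (hn : 3 ≤ n) (i : Fin k) : Eqs K n k :=
  ⟨1, fun _ => X (some i, Fin.castLE hn 0), fun _ j => if j = some i then 1 else 0,
    fun _ => MH_var (some i) _⟩

/-- the closed subset `P i = O` for all `i` -/
noncomputable def zeroAll (K : Type) [Field K] {n k : ℕ} (hn : 3 ≤ n) : Eqs K n k :=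
  ⟨k, fun i => X (some i, Fin.castLE hn 0), fun i j => if j = some i then 1 else 0,
    fun i => MH_var (some i) _⟩

/-- the empty closed subset -/
noncomputable def emp (K : Type) [Field K] {n k : ℕ} : Eqs K n k :=
  ⟨n, fun c => X (none, c), fun _ j => if j = none then 1 else 0, fun c => MH_var none c⟩

lemma ev_X {F : Type} [Field F] [Algebra K F] (hn : 3 ≤ n) (i : Fin k) (t : Fin n → F)
    (u : Fin k → Fin 3 → F) :
    ev (X (some i, Fin.castLE hn 0) : MvPolynomial (Option (Fin k) × Fin n) K) (ful t u) =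
      u i 0 := by
  unfold ev
  rw [aeval_X]
  exact pad_cast hn (u i) 0

lemma ev_none {F : Type} [Field F] [Algebra K F] (c : Fin n) (t : Fin n → F)
    (u : Fin k → Fin 3 → F) :
    ev (X (none, c) : MvPolynomial (Option (Fin k) × Fin n) K) (ful t u) = t c := by
  unfold ev
  rw [aeval_X]
  rfl

lemma eq_inf {a b : K} {F : Type} [Field F] [Algebra K F] {v : Fin 3 → F} (h : OnC a b v)
    (h0 : v 0 = 0) : v = ![0, 0, 1] := by
  obtain ⟨⟨i, hi1, hi2⟩, he⟩ := h
  have h1 : v 1 = 0 := by
    unfold eqn at he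
    simp only [map_sub, map_add, map_mul, map_pow, aeval_X, aeval_C, h0] at he
    have : v 1 ^ 3 = 0 := by
      simpa using he
    exact pow_eq_zero_iff (by norm_num) |>.mp this
  have h2 : v 2 = 1 := by
    fin_cases i
    · exact absurd (h0.symm.trans hi1) (by norm_num)
    · exact absurd (h1.symm.trans hi1) (by norm_num)
    · exact hi1
  funext c
  fin_cases c
  · exact h0
  · exact h1
  · exact h2

lemma no_emp (a b : Fin k → K) : NoPoints a b (emp K : Eqs K n k) := by
  intro F _ _ t u ht _ h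
  apply ht
  funext c
  exact (ev_none (K := K) c t u).symm.trans (h c)

lemma cod_zeroAt [CharZero K] (hn : 3 ≤ n) (a b : Fin k → K)
    (hd : ∀ i, 4 * a i ^ 3 + 27 * b i ^ 2 ≠ 0) (V : Eqs K n k) (i : Fin k) :
    ImageCodim a b V (zeroAt K hn i) 1 := by
  classical
  intro F _ _ t u ht hu hX h
  have h1 := topE a b hd (X (i, 0)) (fun j => if j = i then 1 else 0) (MH_var i 0)
    ⟨AlgebraicClosure K, inferInstance, inferInstance,
      fun j => ![1, 0, (IsAlgClosed.exists_pow_nat_eq (algebraMap K (AlgebraicClosure K) (b j))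
        two_pos).choose], fun j => ⟨⟨0, rfl, fun l hl => absurd hl (Fin.not_lt_zero l)⟩, ?_⟩, ?_⟩
  · refine h1 F u hu (fun _ => ?_)
    unfold ev
    rw [aeval_X]
    exact (ev_X (K := K) hn i t u).symm.trans (h (0 : Fin 1))
  · have h2 := (IsAlgClosed.exists_pow_nat_eq (algebraMap K (AlgebraicClosure K) (b j))
        two_pos).choose_spec
    rw [aeval_eqn]
    simp [h2]
  · unfold ev
    rw [aeval_X]
    exact one_ne_zero

lemma cod_zeroAll (hn : 3 ≤ n) (a b : Fin 2 → K) (X : Eqs K n 2) :
    ImageCodim a b X (zeroAll K hn) 2 := by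
  classical
  intro F _ _ t u ht hu hX h
  have h1 : ∀ i, u i = ![0, 0, 1] := fun i =>
    eq_inf (hu i) ((ev_X (K := K) hn i t u).symm.trans (h i))
  have h2 : IntermediateField.adjoin K (Set.range (fun p : Fin 2 × Fin 3 => u p.1 p.2)) = ⊥ := by
    rw [IntermediateField.adjoin_eq_bot_iff]
    rintro _ ⟨p, rfl⟩
    beta_reduce
    rw [h1]
    obtain ⟨i, c⟩ := p
    fin_cases c
    · exact zero_mem _
    · exact zero_mem _
    · exact one_mem _
  rw [h2]
  have h3 : Algebra.trdeg K (⊥ : IntermediateField K F) = 0 := by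
    exact trdeg_eq_zero
  rw [h3]
  simp

lemma lam_zeroAll [NumberField K] (hn : 3 ≤ n) (t : Fin n → K) (v : Fin 3 → K) (hv : v 0 = 1)
    (w : AbsoluteValue K ℝ) :
    lambda (zeroAll K hn : Eqs K n 2) (ful t (fun _ => v)) w = Real.log (⨆ c, w (v c)) := by
  unfold lambda
  have h1 : ∀ i : Fin (zeroAll K hn : Eqs K n 2).s,
      w (ev ((zeroAll K hn : Eqs K n 2).f i) (ful t (fun _ => v))) /
        ∏ j, (⨆ c, w (ful t (fun _ => v) j c)) ^ (zeroAll K hn : Eqs K n 2).δ i j =
      (⨆ c, w (v c))⁻¹ := by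
    intro i
    have h2 : ev ((zeroAll K hn : Eqs K n 2).f i) (ful t (fun _ => v)) = 1 :=
      (ev_X (K := K) hn i t (fun _ => v)).trans hv
    have h3 : ∏ j, (⨆ c, w (ful t (fun _ : Fin 2 => v) j c)) ^
        (zeroAll K hn : Eqs K n 2).δ i j = ⨆ c, w (v c) := by
      refine (Fintype.prod_eq_single (some (show Fin 2 from i)) (fun j hj => ?_)).trans ?_
      · have h4 : (zeroAll K hn : Eqs K n 2).δ i j = 0 := if_neg hj
        rw [h4, pow_zero]
      · have h4 : (zeroAll K hn : Eqs K n 2).δ i (some i) = 1 := if_pos rfl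
        rw [h4, pow_one]
        exact sup_pad hn w v
    rw [h2, h3, map_one, one_div]
  have : Nonempty (Fin (zeroAll K hn : Eqs K n 2).s) := ⟨(0 : Fin 2)⟩
  simp_rw [h1]
  rw [ciSup_const, Real.log_inv, neg_neg]

lemma lam_emp [NumberField K] (hn : 3 ≤ n) (u : Fin k → Fin 3 → K)
    (w : AbsoluteValue K ℝ) :
    lambda (emp K : Eqs K n k) (ful (fun _ => 1) u) w = 0 := by
  unfold lambda
  have : Nonempty (Fin n) := ⟨⟨0, by omega⟩⟩
  have h1 : ∀ i : Fin (emp K : Eqs K n k).s,
      w (ev ((emp K : Eqs K n k).f i) (ful (fun _ => 1) u)) /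
        ∏ j, (⨆ c, w (ful (fun _ : Fin n => (1 : K)) u j c)) ^ (emp K : Eqs K n k).δ i j = 1 := by
    intro i
    have h2 : ev ((emp K : Eqs K n k).f i) (ful (fun _ => 1) u) = 1 :=
      ev_none (K := K) i (fun _ => 1) u
    have h3 : ∏ j, (⨆ c, w (ful (fun _ : Fin n => (1 : K)) u j c)) ^ (emp K : Eqs K n k).δ i j =
        1 := by
      refine Finset.prod_eq_one (fun j _ => ?_)
      by_cases hj : j = none
      · subst hj
        have h5 : ⨆ c, w (ful (fun _ : Fin n => (1 : K)) u none c) = 1 := by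
          change ⨆ _ : Fin n, w 1 = 1
          rw [ciSup_const, map_one]
        rw [h5, one_pow]
      · have h4 : (emp K : Eqs K n k).δ i j = 0 := if_neg hj
        rw [h4, pow_zero]
    rw [h2, h3, map_one, one_div, inv_one]
  have : Nonempty (Fin (emp K : Eqs K n k).s) := ⟨(⟨0, by omega⟩ : Fin n)⟩
  simp_rw [h1]
  rw [ciSup_const, Real.log_one, neg_zero]

/-- many points outside the closed subsets violate the inequality on the square of a curve -/
lemma strict_low [NumberField K] [DecidableEq K] (hn : 3 ≤ n) (a b : K)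
    (hd : 4 * a ^ 3 + 27 * b ^ 2 ≠ 0) (Γ : AddSubgroup (We.curve a b).toAffine.Point)
    (hr : 1 ≤ Module.finrank ℤ Γ) :
    ∃ c T0 : ℝ, 0 < c ∧ ∀ (S1 : Finset (InfinitePlace K)) (S2 : Finset (FinitePlace K)) (ε : ℝ),
      ε < 1 / 2 → ∀ T : ℝ, T0 ≤ T → c * T ^ ((Module.finrank ℤ Γ : ℝ) / 2) ≤
        ((Ball (fun _ : Fin 2 => Γ) T ∩ StrictExceptions (fun _ => a) (fun _ => b) whole
          (zeroAll K hn : Eqs K n 2) (emp K) S1 S2 ε).ncard : ℝ) := by
  classical
  obtain ⟨c, hc, hlow⟩ := low K a b hd Γ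
  obtain ⟨⟨C, hC⟩, -⟩ := pack K a b hd Γ
  set e : ℝ := (Module.finrank ℤ Γ : ℝ) / 2 with he
  have he0 : 0 < e := by
    have : (1 : ℝ) ≤ Module.finrank ℤ Γ := by exact_mod_cast hr
    rw [he]
    linarith
  set Z : Set (We.curve a b).toAffine.Point := {P | P ∈ Γ ∧ Height.logHeight (We.coords P) ≤ 1}
    with hZ
  have hZf : Z.Finite := (hC 1 le_rfl).1
  obtain ⟨T1, hT1⟩ : ∃ T1 : ℝ, ∀ T, T1 ≤ T → (2 * Z.ncard) / c ≤ T ^ e :=
    Filter.eventually_atTop.mp ((tendsto_rpow_atTop he0).eventually_ge_atTop _)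
  have h2 : (0 : ℝ) < 2 ^ e := Real.rpow_pos_of_pos two_pos _
  refine ⟨c / 2 / 2 ^ e, max 2 (2 * T1), by positivity, fun S1 S2 ε hε T hT => ?_⟩
  have hT2 : 2 ≤ T := (le_max_left _ _).trans hT
  have hT3 : 2 * T1 ≤ T := (le_max_right _ _).trans hT
  have hT4 : 1 ≤ T / 2 := by linarith
  set A : Set (We.curve a b).toAffine.Point :=
    {P | P ∈ Γ ∧ Height.logHeight (We.coords P) ≤ T / 2} with hA
  have hAf : A.Finite := (hC _ hT4).1
  set φ : (We.curve a b).toAffine.Point → Pts (fun _ : Fin 2 => a) (fun _ => b) :=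
    fun P _ => P with hφ
  have hφi : Function.Injective φ := fun P Q h => congrFun h 0
  have hh : ∀ P : (We.curve a b).toAffine.Point, height (φ P) =
      2 * Height.logHeight (We.coords P) := by
    intro P
    unfold height
    rw [Fin.sum_univ_two]
    change Height.logHeight (We.coords P) + Height.logHeight (We.coords P) = _
    ring
  have hsub : φ '' (A \ Z) ⊆ Ball (fun _ : Fin 2 => Γ) T ∩ StrictExceptions (fun _ => a)
      (fun _ => b) whole (zeroAll K hn : Eqs K n 2) (emp K) S1 S2 ε := by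
    rintro _ ⟨P, ⟨hPA, hPZ⟩, rfl⟩
    have hP1 : 1 < Height.logHeight (We.coords P) := by
      by_contra h
      exact hPZ ⟨hPA.1, not_lt.mp h⟩
    have hP0 : We.coords P 0 = 1 := by
      rcases P with _ | ⟨x, y, hxy⟩
      · exfalso
        have h3 : Height.logHeight (![0, 0, 1] : Fin 3 → K) = 0 := by
          rw [Height.logHeight_cons_zero, Height.logHeight_cons_zero]
          exact Height.logHeight_eq_zero_of_subsingleton _
        have h4 : (1 : ℝ) < Height.logHeight (![0, 0, 1] : Fin 3 → K) := hP1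
        rw [h3] at h4
        linarith
      · rfl
    have hne : We.coords P ≠ 0 := fun h => by
      rw [h] at hP0
      exact zero_ne_one hP0
    refine ⟨⟨fun _ => hPA.1, ?_⟩, fun _ => 1, ?_, fun i => i.elim0, ?_, ?_, ?_⟩
    · rw [hh]
      have := hPA.2
      linarith
    · intro h
      exact one_ne_zero (congrFun h ⟨0, by omega⟩)
    · intro h
      have h5 : We.coords P 0 = 0 := (ev_X (K := K) hn (0 : Fin 2) (fun _ => 1)
        (crds (φ P))).symm.trans (h (0 : Fin 2))
      rw [hP0] at h5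
      exact one_ne_zero h5
    · intro h
      exact one_ne_zero ((ev_none (K := K) (⟨0, by omega⟩ : Fin n) (fun _ => (1 : K))
        (crds (φ P))).symm.trans (h (⟨0, by omega⟩ : Fin n)))
    · unfold Fails
      have h6 : proximity (emp K : Eqs K n 2) S1 S2 (ful (fun _ => 1) (crds (φ P))) = 0 := by
        unfold proximity
        simp_rw [lam_emp hn (crds (φ P))]
        simp
      have h7 : heightW (zeroAll K hn : Eqs K n 2) (ful (fun _ => 1) (crds (φ P))) =
          Height.logHeight (We.coords P) := by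
        rw [← tot_sup hne]
        have h8 : crds (φ P) = fun _ : Fin 2 => We.coords P := rfl
        rw [h8]
        unfold heightW tot
        simp_rw [lam_zeroAll hn (fun _ => (1 : K)) (We.coords P) hP0]
        rfl
      rw [h6, h7, hh]
      nlinarith
  have hBf : (Ball (fun _ : Fin 2 => Γ) T).Finite := by
    obtain ⟨C', hC'⟩ := growth_up (a := fun _ : Fin 2 => a) (b := fun _ => b) (fun _ => hd)
      (fun _ => Γ)
    exact (hC' T (by linarith)).1
  have h3 : (A \ Z).ncard ≤ (Ball (fun _ : Fin 2 => Γ) T ∩ StrictExceptions (fun _ => a)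
      (fun _ => b) whole (zeroAll K hn : Eqs K n 2) (emp K) S1 S2 ε).ncard := by
    rw [← Set.ncard_image_of_injective (A \ Z) hφi]
    exact Set.ncard_le_ncard hsub (hBf.subset Set.inter_subset_left)
  have h4 : A.ncard ≤ (A \ Z).ncard + Z.ncard := by
    refine (Set.ncard_le_ncard (fun x hx => ?_) ((hAf.subset Set.sdiff_subset).union hZf)).trans
      (Set.ncard_union_le _ _)
    by_cases hxZ : x ∈ Z
    · exact Or.inr hxZ
    · exact Or.inl ⟨hx, hxZ⟩
  have h5 : (A.ncard : ℝ) ≤ (A \ Z).ncard + Z.ncard := by exact_mod_cast h4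
  have h6 := hlow (T / 2) hT4
  have h7 := hT1 (T / 2) (by linarith)
  rw [div_le_iff₀ hc] at h7
  have h8 : c / 2 / 2 ^ e * T ^ e = c / 2 * (T / 2) ^ e := by
    rw [Real.div_rpow (by linarith) (by norm_num)]
    ring
  rw [h8]
  have h9 : ((A \ Z).ncard : ℝ) ≤ ((Ball (fun _ : Fin 2 => Γ) T ∩ StrictExceptions (fun _ => a)
      (fun _ => b) whole (zeroAll K hn : Eqs K n 2) (emp K) S1 S2 ε).ncard : ℝ) := by
    exact_mod_cast h3
  have h10 : c * (T / 2) ^ e ≤ (A.ncard : ℝ) := h6
  linarith

end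

/-- Let `B = ∏ E i` be a product of `k ≥ 2` elliptic curves `y² = x³ + a i x + b i` over the number
field `K`, `Γ i` a subgroup of `E i (K)` (for example `E i (K)`) of rank at least `m ≥ 1`, `r` the sum
of the ranks, `X` any closed subset of `ℙ × B`, `W` and `D` closed subschemes of `X` whose images in
`B` have codimension at least two and at least one, `S` a finite set of places and `ε > 0`. The number
of points of `∏ Γ i` of height at most `T` has the order of magnitude `T ^ (r / 2)`, and the inequality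
`h_W(x) + m_{S,D}(x) ≤ ε h(P)` holds for all rational points `x` of `X` over `P`, for all `P` of height
at most `T` in `∏ Γ i` with `O(T ^ ((r - m) / 2))` exceptions. The exponent is the best possible if
`m` is the smallest rank; on `E × E` there are `W` and `D` (`W` the origin, `D` empty) with as many
exceptions outside `W` and `D`, for all `ε < 1 / 2`. -/
theorem result :
    (∀ (K : Type) [Field K] [NumberField K] [DecidableEq K] (n k : ℕ), 3 ≤ n → 2 ≤ k →
      ∀ a b : Fin k → K, (∀ i, 4 * a i ^ 3 + 27 * b i ^ 2 ≠ 0) →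
      ∀ (Γ : ∀ i, AddSubgroup (We.curve (a i) (b i)).toAffine.Point) (m : ℕ), 1 ≤ m →
        (∀ i, m ≤ Module.finrank ℤ (Γ i)) →
        Growth Γ ∧ FewExceptions n Γ m ∧ Optimal n Γ) ∧
    ∀ (K : Type) [Field K] [NumberField K] [DecidableEq K] (n : ℕ), 3 ≤ n →
      ∀ a b : K, 4 * a ^ 3 + 27 * b ^ 2 ≠ 0 → OptimalOff K n a b := by
  classical
  refine ⟨?_, ?_⟩
  · intro K _ _ _ n k hn hk a b hd Γ m hm hr
    have hk1 : (1 : ℝ) ≤ k := by exact_mod_cast (by omega : 1 ≤ k)
    obtain ⟨C1, hC1⟩ := Pool.Agent.Y20.VP.growth_up hd Γ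
    obtain ⟨c1, hc1, hlow⟩ := Pool.Agent.Y20.VP.growth_low (by omega) hd Γ
    refine ⟨⟨c1, C1, k, hc1, fun T hT => ⟨(hC1 T (hk1.trans hT)).1, hlow T hT,
      (hC1 T (hk1.trans hT)).2⟩⟩, ?_, ?_⟩
    · intro X W D hW hD S1 S2 ε hε
      obtain ⟨C, hC⟩ := Pool.Agent.Y20.VP.main hn hk a b hd Γ m hm hr X.f
        (fun i => ⟨X.δ i, X.hom i⟩) W.f W.δ W.hom D.f D.δ D.hom
        (fun F _ _ t u ht hu h1 h2 => hW F t u ht hu h1 h2)
        (fun F _ _ t u ht hu h1 h2 => hD F t u ht hu h1 h2) S1 S2 ε hε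
      refine ⟨C, fun T hT => ?_⟩
      obtain ⟨h1, h2⟩ := hC T hT
      refine le_trans ?_ h2
      rw [← Set.ncard_image_of_injective _ (Pool.Agent.Y20.VP.crds_inj (a := a) (b := b))]
      have h3 : (fun (P : ∀ i, (We.curve (a i) (b i)).toAffine.Point) (i : Fin k) =>
          We.coords (P i)) '' (Ball Γ T ∩ Exceptions a b X W D S1 S2 ε) ⊆
          BadX X.f W.f W.δ D.f D.δ S1 S2 (fun i => Pool.Agent.Y20.VP.HS (Γ i)) ε T := by
        rintro _ ⟨P, ⟨hP, t, ht, hX, h⟩, rfl⟩
        exact ⟨Pool.Agent.Y20.VP.BallP_sub Γ T ⟨P, hP, rfl⟩, t, ht, hX, h⟩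
      exact_mod_cast Set.ncard_le_ncard h3 h1
    · intro i
      obtain ⟨c, hc, hl⟩ := Pool.Agent.Y20.VP.low_zero (by omega) hd Γ i
      refine ⟨zeroAt K hn i, cod_zeroAt hn a b hd _ i, c, k, hc, fun W S1 S2 ε T hT => ?_⟩
      refine (hl T hT).trans ?_
      have h1 : {P | P ∈ Pool.Agent.Y20.VP.BallP Γ T ∧ P i = 0} ⊆
          Ball Γ T ∩ Exceptions a b whole W (zeroAt K hn i : Eqs K n k) S1 S2 ε := by
        rintro P ⟨hP, h0⟩
        refine ⟨hP, fun _ => 1, ?_, fun j => j.elim0, Or.inr (Or.inl (fun j => ?_))⟩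
        · intro h
          exact one_ne_zero (congrFun h ⟨0, by omega⟩)
        · refine (ev_X (K := K) hn i (fun _ => 1) (crds P)).trans ?_
          change We.coords (P i) 0 = 0
          rw [h0]
          rfl
      exact_mod_cast Set.ncard_le_ncard h1 ((hC1 T (hk1.trans hT)).1.subset
        Set.inter_subset_left)
  · intro K _ _ _ n hn a b hd
    exact ⟨zeroAll K hn, emp K, cod_zeroAll hn _ _ _, no_emp _ _, fun Γ hr =>
      strict_low hn a b hd Γ hr⟩

end Pool.Agent.Results.MP_17a322_nt.SharpExceptionalSet
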