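import Mathlib
import Pool.Agent.Y724.Vj.Main

set_option autoImplicit false

/-!
# Vojta's inequality for all smooth projective varieties over `ℚ` and all normal crossings divisors,
at the rational points proportional to short sums of `S`-units with small coefficients

`X` is a smooth projective variety of dimension `N` in `ℙ^(N + s)` with the equations `G k = 0`.
`D = D_1 + ⋯ + D_q` is a divisor of `X` with strict normal crossings, `D_i` the subvariety of `X`
with the equations `F i j = 0`, `j < w`, `F i j` of degree `d i j` (not necessarily a hypersurface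
section).
-/

namespace Pool.Agent.Results.MP_17a322_nt.ShortSumsOfSUnits

open MvPolynomial

/-- `x` is a primitive integer vector; every rational point of a projective space is represented by
exactly two of them, `x` and `-x` -/
def IsPrimitive {M : ℕ} (x : Fin M → ℤ) : Prop :=
  Finset.univ.gcd x = 1

/-- `max |x_i|`, the multiplicative height of the point given by a primitive `x` -/
def height {M : ℕ} (x : Fin M → ℤ) : ℕ :=
  Finset.univ.sup (fun i => (x i).natAbs)

/-- `x` is a point of the variety `X` -/
def OnX {M g : ℕ} (G : Fin g → MvPolynomial (Fin M) ℤ) (x : Fin M → ℤ) : Prop :=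
  ∀ k, eval x (G k) = 0

/-- The local height at the infinite place of the subvariety with the equations `F j = 0` at a
primitive `x`: minus the logarithm of `max_j |F j x| / max |x_i| ^ d j`. -/
noncomputable def localHeightInf {M w : ℕ} (F : Fin w → MvPolynomial (Fin M) ℤ) (d : Fin w → ℕ)
    (x : Fin M → ℤ) : ℝ :=
  -Real.log (⨆ j, |((eval x (F j) : ℤ) : ℝ)| / (height x : ℝ) ^ d j)

/-- The local height at the prime `p` of the subvariety with the equations `F j = 0` at a primitive
`x`: minus the logarithm of `max_j |F j x|_p`. -/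
noncomputable def localHeight {M w : ℕ} (F : Fin w → MvPolynomial (Fin M) ℤ) (p : ℕ)
    (x : Fin M → ℤ) : ℝ :=
  -Real.log (⨆ j, ((padicNorm p ((eval x (F j) : ℤ) : ℚ) : ℚ) : ℝ))

/-- The proximity function `m_{S,D}(x)` of `D = D_1 + ⋯ + D_q` for the infinite place and the primes
`p ∈ S`. -/
noncomputable def proximity {M q w : ℕ} (F : Fin q → Fin w → MvPolynomial (Fin M) ℤ)
    (d : Fin q → Fin w → ℕ) (S : Finset ℕ) (x : Fin M → ℤ) : ℝ :=
  ∑ i, (localHeightInf (F i) (d i) x + ∑ p ∈ S, localHeight (F i) p x)

/-- The columns of `A` are a basis of the tangent space of the affine cone over `X` at `x` (the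
vectors orthogonal to all gradients of equations), `X` being smooth of dimension `N` at `x`. -/
def IsTangentBasis {M N g : ℕ} (G : Fin g → MvPolynomial (Fin M) ℤ) (x : Fin M → ℤ)
    (A : Matrix (Fin M) (Fin (N + 1)) ℤ) : Prop :=
  LinearIndependent ℚ (fun c : Fin (N + 1) => fun j : Fin M => (A j c : ℚ)) ∧
    ∀ k c, ∑ j, eval x (pderiv j (G k)) * A j c = 0

/-- The maximal minor of `A` with the rows `J`. -/
def minor {M N : ℕ} (A : Matrix (Fin M) (Fin (N + 1)) ℤ) (J : Fin (N + 1) → Fin M) : ℤ :=
  (A.submatrix J id).det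

/-- The height `h_K(x)` for the canonical class `K` of `X`. The Gauss map `γ` sends a point of `X` to
its embedded tangent space, `γ^* O(1) = K + (N + 1) H` for the hyperplane class `H`, and `h_K(x)` is
the height of `γ(x)` (the logarithm of the maximum of the absolute values of the Plücker coordinates,
divided by their greatest common divisor) minus `(N + 1) h(x)`. -/
noncomputable def canonicalHeight {M N : ℕ} (x : Fin M → ℤ) (A : Matrix (Fin M) (Fin (N + 1)) ℤ) :
    ℝ :=
  Real.log (((Finset.univ.sup (fun J : Fin (N + 1) → Fin M => (minor A J).natAbs) : ℕ) : ℝ) /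
    ((Finset.univ.gcd (fun J : Fin (N + 1) → Fin M => minor A J) : ℤ) : ℝ)) -
    (N + 1) * Real.log (height x)

/-- The dimension of `X` is at least `N`: some `N + 1` coordinates are algebraically independent on
the cone over `X`. -/
def DimGE {M g : ℕ} (N : ℕ) (G : Fin g → MvPolynomial (Fin M) ℤ) : Prop :=
  ∃ J : Fin (N + 1) → Fin M, ∀ P : MvPolynomial (Fin (N + 1)) ℚ,
    (∀ z : Fin M → ℂ, (∀ k, aeval z (G k) = 0) → aeval (fun i => z (J i)) P = 0) → P = 0

/-- `X` is smooth of codimension `s` and `D` has strict normal crossings on `X`: at every complex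
point `z` of `X`, for suitable `s` equations of `X` and one equation of each component of `D`
through `z`, all gradients at `z` are linearly independent. -/
def SmoothPair {M g q w : ℕ} (s : ℕ) (G : Fin g → MvPolynomial (Fin M) ℤ)
    (F : Fin q → Fin w → MvPolynomial (Fin M) ℤ) : Prop :=
  ∀ z : Fin M → ℂ, z ≠ 0 → (∀ k, aeval z (G k) = 0) →
    ∃ (K : Fin s → Fin g) (J : Fin q → Fin w),
      LinearIndependent ℂ (Sum.elim
        (fun a : Fin s => fun y : Fin M => aeval z (pderiv y (G (K a))))
        (fun i : {i : Fin q // ∀ j, aeval z (F i j) = 0} => fun y : Fin M =>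
          aeval z (pderiv y (F i.1 (J i.1)))))

/-- `u` is an `S`-unit: plus or minus a product of powers (with integer exponents) of the primes in
`S` -/
def IsSUnit (S : Finset ℕ) (u : ℚ) : Prop :=
  ∃ (σ : ℤ) (e : ℕ → ℤ), (σ = 1 ∨ σ = -1) ∧ u = σ * ∏ p ∈ S, (p : ℚ) ^ e p

/-- The point of the projective space given by the primitive vector `x` has homogeneous coordinates
`lam * x i` which are sums of `r` `S`-units `u j` (the same for all coordinates) with integer
coefficients of absolute value at most `B * H(x) ^ δ`. -/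
def IsShortSum {M : ℕ} (S : Finset ℕ) (r : ℕ) (B δ : ℝ) (x : Fin M → ℤ) : Prop :=
  ∃ (lam : ℚ) (u : Fin r → ℚ) (c : Fin r → Fin M → ℤ), lam ≠ 0 ∧ (∀ j, IsSUnit S (u j)) ∧
    (∀ j i, |(c j i : ℝ)| ≤ B * (height x : ℝ) ^ δ) ∧ ∀ i, lam * x i = ∑ j, u j * c j i

/-- **Main theorem.** Let `X` be a smooth projective variety of dimension `N` over `ℚ` in
`ℙ^(N + s)` and `D` a divisor of `X` with strict normal crossings. Let `S` be a finite set of primes,
`r` a natural number, `B` and `ε > 0` real numbers. There are `δ > 0`, a form `Φ` that does not vanish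
on `X` and a constant `C` such that all rational points `x` of `X` off `D` and off `Φ = 0` which have
homogeneous coordinates that are sums of `r` `S`-units with integer coefficients of absolute value at
most `B H(x)^δ` satisfy Vojta's inequality `m_{S,D}(x) + h_K(x) ≤ ε h(x) + C`. -/
theorem result (N s g q w : ℕ) (G : Fin g → MvPolynomial (Fin (N + s + 1)) ℤ) (e : Fin g → ℕ)
    (hG : ∀ k, (G k).IsHomogeneous (e k)) (F : Fin q → Fin w → MvPolynomial (Fin (N + s + 1)) ℤ)
    (d : Fin q → Fin w → ℕ) (hF : ∀ i j, (F i j).IsHomogeneous (d i j))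
    (hdim : DimGE N G) (hsm : SmoothPair s G F) (S : Finset ℕ) (hS : ∀ p ∈ S, p.Prime)
    (r : ℕ) (B ε : ℝ) (hε : 0 < ε) :
    ∃ (δ : ℝ) (Φ : MvPolynomial (Fin (N + s + 1)) ℚ) (k : ℕ) (C : ℝ), 0 < δ ∧
      Φ.IsHomogeneous k ∧
      (∃ z : Fin (N + s + 1) → ℂ, (∀ k, aeval z (G k) = 0) ∧ aeval z Φ ≠ 0) ∧
      ∀ x : Fin (N + s + 1) → ℤ, IsPrimitive x → OnX G x → IsShortSum S r B δ x →
        eval (fun i => (x i : ℚ)) Φ ≠ 0 → (∀ i, ∃ j, eval x (F i j) ≠ 0) →
        ∀ A : Matrix (Fin (N + s + 1)) (Fin (N + 1)) ℤ, IsTangentBasis G x A →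
          proximity F d S x + canonicalHeight x A ≤ ε * Real.log (height x) + C := by
  classical
  obtain ⟨J, hJ⟩ := hdim
  -- the primes
  set b : Fin S.card → ℕ := fun v => (S.equivFin.symm v : ℕ) with hb
  have hbS : ∀ v, b v ∈ S := fun v => (S.equivFin.symm v).2
  have hbp : ∀ v, (b v).Prime := fun v => hS _ (hbS v)
  have hbi : Function.Injective b := by
    intro v v' h
    exact S.equivFin.symm.injective (Subtype.ext h)
  have hsum : ∀ f : ℕ → ℝ, ∑ v, f (b v) = ∑ p ∈ S, f p := by
    intro f
    rw [← Finset.sum_coe_sort S f, ← Equiv.sum_comp S.equivFin.symm]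
  have hunit : ∀ u : ℚ, IsSUnit S u → Pool.Agent.TH551.SU.IsSU b u := by
    rintro u ⟨σ, e, hσ, rfl⟩
    refine ⟨σ, fun v => e (b v), hσ, ?_⟩
    congr 1
    rw [← Finset.prod_coe_sort S (fun p => (p : ℚ) ^ e p), ← Equiv.prod_comp S.equivFin.symm]
  -- smoothness
  have hev : ∀ (z : Fin (N + s + 1) → ℂ) (P : MvPolynomial (Fin (N + s + 1)) ℤ),
      Pool.Agent.Y724.Vj.evi z P = aeval z P := by
    intro z P
    unfold Pool.Agent.Y724.Vj.evi
    rw [aeval_def]
    congr 1
  have hnc : Pool.Agent.Y724.Vj.NCf ℂ s G F := by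
    intro z hz hzG
    obtain ⟨K, J', h⟩ := hsm z hz (fun k => by rw [← hev]; exact hzG k)
    refine ⟨K, J', ?_⟩
    simp only [hev]
    exact h
  obtain ⟨δ, Ψ, k, C, hδ, hΨ0, hΨh, hPP⟩ := Pool.Agent.Y724.Vj.all_PP (n := N + 1) (sc := s)
    b hbp hbi (by omega) G e hG F d hF hnc J (max B 1) (le_max_right _ _) ε hε r
  refine ⟨δ, rename J Ψ, k, C, hδ, hΨh.rename_isHomogeneous, ?_, ?_⟩
  · by_contra hcon
    push Not at hcon
    apply hΨ0
    apply hJ
    intro z hz
    have := hcon z hz
    rw [aeval_rename] at this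
    exact this
  · intro x hx hX hshort hΦ _ A hA
    rw [eval_rename] at hΦ
    have hsh : Pool.Agent.Y724.Vj.Short b r (max B 1) δ x := by
      obtain ⟨lam, u, c, h1, h2, h3, h4⟩ := hshort
      refine ⟨lam, u, c, h1, fun j => hunit _ (h2 j), fun j y => ?_, h4⟩
      exact (h3 j y).trans (mul_le_mul_of_nonneg_right (le_max_left _ _)
        (Real.rpow_nonneg (Nat.cast_nonneg _) _))
    have h4 := hPP x hx hX hsh (by
      rw [← coe_aeval_eq_eval] at hΦ
      exact hΦ) A (by
      intro y hy
      have h5 := Fintype.linearIndependent_iff.1 hA.1 y (by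
        funext j
        rw [Finset.sum_apply, Pi.zero_apply, ← hy j]
        exact Finset.sum_congr rfl fun c _ => by rw [Pi.smul_apply, smul_eq_mul, mul_comm])
      exact funext h5) hA.2
    have h6 : proximity F d S x + canonicalHeight x A =
        (∑ i, (Pool.Agent.TH585.VF.locInf (F i) (d i) (height x) x +
          ∑ p ∈ S, Pool.Agent.TH585.VF.locP (F i) p x) +
        Real.log (Pool.Agent.TH585.VF.ratio (fun J : Fin (N + 1) → Fin (N + s + 1) =>
          (A.submatrix J id).det))) - (N + 1) * Real.log (height x) := by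
      unfold canonicalHeight
      rw [← add_sub_assoc]
      rfl
    rw [h6]
    simp only [← hsum]
    push_cast at h4
    have h7 : (∑ i, (Pool.Agent.TH585.VF.locInf (F i) (d i) (height x) x +
          ∑ v, Pool.Agent.TH585.VF.locP (F i) (b v) x) +
        Real.log (Pool.Agent.TH585.VF.ratio (fun J : Fin (N + 1) → Fin (N + s + 1) =>
          (A.submatrix J id).det))) ≤ (N + 1) * Real.log (height x) +
            (ε * Real.log (height x) + C) := h4
    linarith

end Pool.Agent.Results.MP_17a322_nt.ShortSumsOfSUnits
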